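import Mathlib
import Pool.Agent.Lib.MP_562b47_mp.WindowB
import Pool.Agent.Lib.MP_562b47_mp.QP.Fin2

/-!
The Anderson model on `ℤ^d` with uniformly distributed potential, `d ≥ 1`, at an arbitrary disorder
strength `c > 0`.  The transport is never ballistic; and, unless the operator is almost surely
purely singular, it is transient in the sense of Pólya: if `N_δ(T)` is the number of sites which
carry the particle, up to the mass `δ`, up to the time `T`, then `∫_1^∞ dT / N_δ(T) < ∞` for some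
`δ > 0`.

The Hilbert space `ℓ²(ℤ^d)` is given as a complex Hilbert space `V` with a Hilbert basis
`(b j)`, `j ∈ ℤ^d` (for `V = ℓ²(ℤ^d)`: `b j` is the unit vector `δ_j`).
-/

open MeasureTheory Complex Filter Topology
open scoped InnerProductSpace ENNReal

namespace Pool.Agent.Results.MP_562b47_mp.QuantumPolya

/-- The uniform distribution on `[-c, c]`. -/
noncomputable def unifLaw (c : ℝ) : Measure ℝ :=
  (ENNReal.ofReal (2 * c))⁻¹ • volume.restrict (Set.Icc (-c) c)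

/-- The law of the random potential `(ω_j)`, `j ∈ ℤ^d`: independent coordinates, each uniformly
distributed on `[-c, c]`. -/
noncomputable def potLaw (d : ℕ) (c : ℝ) : Measure ((Fin d → ℤ) → ℝ) :=
  Measure.infinitePi fun _ => unifLaw c

/-- `H` is the operator `Δ_ω` on the Hilbert space with orthonormal basis `b j = δ_j`, `j ∈ ℤ^d`:
`H δ_j = - ∑_{|n| = 1} (δ_{j + n} - δ_j) + ω_j δ_j`. -/
def IsDelta {d : ℕ} {V : Type*} [NormedAddCommGroup V] [InnerProductSpace ℂ V]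
    (b : HilbertBasis (Fin d → ℤ) ℂ V) (ω : (Fin d → ℤ) → ℝ) (H : V →L[ℂ] V) : Prop :=
  ∀ j : Fin d → ℤ, H (b j) = -∑ i : Fin d, ((b (j + Pi.single i 1) - b j)
    + (b (j - Pi.single i 1) - b j)) + (ω j : ℂ) • b j

/-- `μ` is the spectral measure of the vector `u` for the bounded self-adjoint operator `H`: it is
finite and `∫ f dμ = ⟨u, f(H) u⟩` for all bounded continuous `f : ℝ → ℝ`. -/
def IsSpectralMeasure {V : Type*} [NormedAddCommGroup V] [InnerProductSpace ℂ V] [CompleteSpace V]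
    (H : V →L[ℂ] V) (u : V) (μ : Measure ℝ) : Prop :=
  IsFiniteMeasure μ ∧
    ∀ f : BoundedContinuousFunction ℝ ℝ, ((∫ x, f x ∂μ : ℝ) : ℂ) = ⟪u, cfc (⇑f) H u⟫_ℂ

/-- `H` has purely singular spectrum: the spectral measure of every vector is singular with respect
to Lebesgue measure. -/
def PurelySingular {V : Type*} [NormedAddCommGroup V] [InnerProductSpace ℂ V] [CompleteSpace V]
    (H : V →L[ℂ] V) : Prop :=
  ∀ (u : V) (μ : Measure ℝ), IsSpectralMeasure H u μ → μ ⟂ₘ volume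

/-- The amplitude `⟨δ_x, e^{-itH} δ_0⟩`: for the particle which starts at the origin, the
probability to be at `x` at time `t` is `|⟨δ_x, e^{-itH} δ_0⟩|²`. -/
noncomputable def amplitude {d : ℕ} {V : Type*} [NormedAddCommGroup V]
    [InnerProductSpace ℂ V] [CompleteSpace V] (b : HilbertBasis (Fin d → ℤ) ℂ V) (H : V →L[ℂ] V)
    (t : ℝ) (x : Fin d → ℤ) : ℂ :=
  ⟪b x, NormedSpace.exp ((-(t : ℂ) * I) • H) (b 0)⟫_ℂ

/-- The mean square displacement at time `t`: the expectation of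
`∑_x |x|² |⟨δ_x, e^{-itΔ_ω} δ_0⟩|²`, with the Euclidean norm `|x|`. -/
noncomputable def meanSqDisplacement {d : ℕ} {V : Type*} [NormedAddCommGroup V]
    [InnerProductSpace ℂ V] [CompleteSpace V] (c : ℝ) (b : HilbertBasis (Fin d → ℤ) ℂ V)
    (Δ : ((Fin d → ℤ) → ℝ) → (V →L[ℂ] V)) (t : ℝ) : ℝ≥0∞ :=
  ∫⁻ ω, ∑' x : Fin d → ℤ, ENNReal.ofReal (∑ i, (x i : ℝ) ^ 2) * ‖amplitude b (Δ ω) t x‖ₑ ^ 2
    ∂(potLaw d c)

/-- The probability (also with respect to the disorder) to be outside of `S` at time `t`. -/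
noncomputable def outsideProb {d : ℕ} {V : Type*} [NormedAddCommGroup V]
    [InnerProductSpace ℂ V] [CompleteSpace V] (c : ℝ) (b : HilbertBasis (Fin d → ℤ) ℂ V)
    (Δ : ((Fin d → ℤ) → ℝ) → (V →L[ℂ] V)) (S : Finset (Fin d → ℤ)) (t : ℝ) : ℝ≥0∞ :=
  ∫⁻ ω, ∑' x : {x : Fin d → ℤ // x ∉ S}, ‖amplitude b (Δ ω) t x‖ₑ ^ 2 ∂(potLaw d c)

/-- The number `N_δ(T)` of sites visited up to time `T`: the least number of points of a finite set
`S` such that `T⁻¹ ∫_0^T outsideProb S t dt ≤ δ`. -/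
noncomputable def sites {d : ℕ} {V : Type*} [NormedAddCommGroup V]
    [InnerProductSpace ℂ V] [CompleteSpace V] (c : ℝ) (b : HilbertBasis (Fin d → ℤ) ℂ V)
    (Δ : ((Fin d → ℤ) → ℝ) → (V →L[ℂ] V)) (δ T : ℝ) : ℝ≥0∞ :=
  ⨅ (S : Finset (Fin d → ℤ)) (_ : ∫⁻ t in Set.Ioc 0 T, outsideProb c b Δ S t
    ≤ ENNReal.ofReal (δ * T)), (S.card : ℝ≥0∞)

/-- Let `d ≥ 1` and `c > 0`, and let `M(t)` be the mean square displacement.  The family `Δ_ω`
exists, and `M(T) / T² → 0`; and `Δ_ω` is almost surely purely singular, or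
`∫_1^∞ dT / N_δ(T) < ∞` for some `δ > 0` and `∫_1^∞ (1 + M̄(T))^{-d/2} dT < ∞`, where
`M̄(T) = T⁻¹ ∫_0^T M(t) dt`. -/
theorem result (d : ℕ) (_hd : 1 ≤ d) (c : ℝ) (hc : 0 < c) {V : Type*} [NormedAddCommGroup V]
    [InnerProductSpace ℂ V] [CompleteSpace V] (b : HilbertBasis (Fin d → ℤ) ℂ V) :
    (∃ Δ : ((Fin d → ℤ) → ℝ) → (V →L[ℂ] V),
      ∀ᵐ ω ∂(potLaw d c), IsDelta b ω (Δ ω) ∧ IsSelfAdjoint (Δ ω)) ∧
    ∀ Δ : ((Fin d → ℤ) → ℝ) → (V →L[ℂ] V), (∀ᵐ ω ∂(potLaw d c), IsDelta b ω (Δ ω)) →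
      Tendsto (fun T : ℝ => meanSqDisplacement c b Δ T / ENNReal.ofReal (T ^ 2)) atTop (𝓝 0) ∧
      ((∀ᵐ ω ∂(potLaw d c), PurelySingular (Δ ω)) ∨
        ((∃ δ : ℝ, 0 < δ ∧ ∫⁻ T in Set.Ioi (1 : ℝ), (sites c b Δ δ T)⁻¹ < ⊤) ∧
          ∫⁻ T in Set.Ioi (1 : ℝ), (1 + (∫⁻ t in Set.Ioc 0 T, meanSqDisplacement c b Δ t)
            / ENNReal.ofReal T) ^ (-(d : ℝ) / 2) < ⊤)) := by
  have hIcc := Pool.Agent.Lib.MP_562b47_mp.ae_mem_Icc (d := d) hc
  refine ⟨⟨Pool.Agent.Lib.MP_562b47_mp.HB b c, ?_⟩, fun Δ hΔ => ?_⟩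
  · filter_upwards [hIcc] with ω hω
    exact ⟨Pool.Agent.Lib.MP_562b47_mp.HB_basis' b hω,
      Pool.Agent.Lib.MP_562b47_mp.isSelfAdjoint_HB b hc ω⟩
  · have hae : ∀ᵐ ω ∂(potLaw d c), Δ ω = Pool.Agent.Lib.MP_562b47_mp.HB b c ω := by
      filter_upwards [hIcc, hΔ] with ω hω h2
      refine Pool.Agent.Lib.MP_562b47_mp.eq_HB_of_basis b fun j => ?_
      rw [Pool.Agent.Lib.MP_562b47_mp.HB_basis' b hω]
      exact h2 j
    have hamp : ∀ (ω : (Fin d → ℤ) → ℝ) (t : ℝ) (x : Fin d → ℤ),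
        amplitude b (Pool.Agent.Lib.MP_562b47_mp.HB b c ω) t x
        = ⟪Pool.Agent.Lib.MP_562b47_mp.ee d x, Pool.Agent.Lib.MP_562b47_mp.Ut
          (Pool.Agent.Lib.MP_562b47_mp.HH d c) ω t (Pool.Agent.Lib.MP_562b47_mp.ee d 0)⟫_ℂ := by
      intro ω t x
      unfold amplitude
      rw [← b.repr.inner_map_map, Pool.Agent.Lib.MP_562b47_mp.repr_exp,
        Pool.Agent.Lib.MP_562b47_mp.repr_b, Pool.Agent.Lib.MP_562b47_mp.repr_b]
      rfl
    have hmsd : ∀ t, meanSqDisplacement c b Δ t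
        = ∫⁻ ω, Pool.Agent.Lib.MP_562b47_mp.sqd d c t ω
          ∂(Pool.Agent.Lib.MP_562b47_mp.PP (Fin d → ℤ) c) := by
      intro t
      unfold meanSqDisplacement
      refine lintegral_congr_ae ?_
      filter_upwards [hae] with ω hω
      rw [hω]
      simp_rw [hamp]
      rfl
    have hout : ∀ (S : Finset (Fin d → ℤ)) (t : ℝ), outsideProb c b Δ S t
        = ∫⁻ ω, ENNReal.ofReal (Pool.Agent.Lib.MP_562b47_mp.outF
          (Pool.Agent.Lib.MP_562b47_mp.ee d) (Pool.Agent.Lib.MP_562b47_mp.HH d c) S t ω)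
          ∂(Pool.Agent.Lib.MP_562b47_mp.PP (Fin d → ℤ) c) := by
      intro S t
      unfold outsideProb
      refine lintegral_congr_ae ?_
      filter_upwards [hae] with ω hω
      rw [hω]
      simp_rw [hamp]
      exact Pool.Agent.Lib.MP_562b47_mp.QP.qpf_tsum_out hc S t ω
    have hsites : ∀ δ T : ℝ, sites c b Δ δ T = Pool.Agent.Lib.MP_562b47_mp.QP.Nst c
        (Pool.Agent.Lib.MP_562b47_mp.ee d) (Pool.Agent.Lib.MP_562b47_mp.HH d c) δ T := by
      intro δ T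
      unfold sites Pool.Agent.Lib.MP_562b47_mp.QP.Nst
      simp_rw [hout]
    simp_rw [hmsd, hsites]
    refine ⟨Pool.Agent.Lib.MP_562b47_mp.no_ballistic hc, ?_⟩
    by_cases hns : ∀ᵐ ω ∂(Pool.Agent.Lib.MP_562b47_mp.PP (Fin d → ℤ) c), ∀ μ : Measure ℝ,
        IsFiniteMeasure μ → Pool.Agent.Lib.MP_562b47_mp.IsSpec
          (Pool.Agent.Lib.MP_562b47_mp.HH d c ω) (Pool.Agent.Lib.MP_562b47_mp.ee d 0) μ →
        μ ⟂ₘ volume
    · left
      filter_upwards [Pool.Agent.Lib.MP_562b47_mp.singular_HB b hc hns, hae] with ω h1 h2 u μ hμ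
      rw [h2] at hμ
      exact h1 u μ hμ.1 hμ.2
    · right
      obtain ⟨δ, hδ, h⟩ := Pool.Agent.Lib.MP_562b47_mp.QP.fin1
        (Pool.Agent.Lib.MP_562b47_mp.model hc) (Pool.Agent.Lib.MP_562b47_mp.covOp_HH hc) hns
      exact ⟨⟨δ, hδ, h⟩, Pool.Agent.Lib.MP_562b47_mp.QP.fin2 hc hδ h⟩

end Pool.Agent.Results.MP_562b47_mp.QuantumPolya
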