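import Mathlib
import Pool.Agent.Lib.MP_562b47_mp.SG.Final
import Pool.Agent.Lib.MP_562b47_mp.SC.Box

/-!
The Anderson model with uniformly distributed potential on the slabs
`{j ∈ ℤ^(2+k) : 1 ≤ j_(2+i) ≤ M_i for i < k}` (two infinite directions, `k` directions of arbitrary
finite thickness, Dirichlet condition at the boundary): for every disorder strength `c > 0` the
spectrum is almost surely purely singular.
-/

open MeasureTheory Complex
open scoped InnerProductSpace

namespace Pool.Agent.Results.MP_562b47_mp.SlabSingular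

/-- The uniform distribution on `[-c, c]`: density `1 / (2c)` with respect to Lebesgue measure. -/
noncomputable def unifLaw (c : ℝ) : Measure ℝ :=
  (ENNReal.ofReal (2 * c))⁻¹ • volume.restrict (Set.Icc (-c) c)

/-- The point `j ∈ ℤ^(2+k)` lies in the slab of thicknesses `M_0, ..., M_{k-1}`:
`1 ≤ j_(2+i) ≤ M_i` for all `i < k`.  The first two coordinates are free. -/
def InSlab {k : ℕ} (M : Fin k → ℕ) (j : Fin (2 + k) → ℤ) : Prop :=
  ∀ i : Fin k, 1 ≤ j (Fin.natAdd 2 i) ∧ j (Fin.natAdd 2 i) ≤ M i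

/-- The slab. -/
abbrev Slab {k : ℕ} (M : Fin k → ℕ) : Type := {j : Fin (2 + k) → ℤ // InSlab M j}

/-- The law of the random potential `(ω_j)`, `j` in the slab: independent coordinates, each uniformly
distributed on `[-c, c]`. -/
noncomputable def potLaw {k : ℕ} (M : Fin k → ℕ) (c : ℝ) : Measure (Slab M → ℝ) :=
  Measure.infinitePi fun _ => unifLaw c

/-- The complex Hilbert space `ℓ²` of the slab. -/
abbrev ellTwo {k : ℕ} (M : Fin k → ℕ) : Type := lp (fun _ : Slab M => ℂ) 2

open Classical in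
/-- The extension of a function on the slab by zero to `ℤ^(2+k)`. -/
noncomputable def ext {k : ℕ} {M : Fin k → ℕ} (u : Slab M → ℂ) (j : Fin (2 + k) → ℤ) : ℂ :=
  if h : InSlab M j then u ⟨j, h⟩ else 0

/-- `H` is the operator `Δ_ω` of the slab with Dirichlet condition, that is, the compression to
`ℓ²(slab)` of the Anderson operator on `ℓ²(ℤ^(2+k))`: for all `u` and all `j` in the slab,
`(H u)(j) = - ∑_{|n| = 1} (u(j + n) - u(j)) + ω_j u(j)`, where the sum runs over all `2(2+k)` unit
vectors `n = ± e_i` of `ℤ^(2+k)` and `u` is extended by zero.  This determines `H` uniquely. -/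
def IsDelta {k : ℕ} {M : Fin k → ℕ} (ω : Slab M → ℝ) (H : ellTwo M →L[ℂ] ellTwo M) : Prop :=
  ∀ (u : ellTwo M) (j : Slab M), H u j = -∑ i : Fin (2 + k), ((ext u (j.1 + Pi.single i 1) - u j)
    + (ext u (j.1 - Pi.single i 1) - u j)) + (ω j : ℂ) * u j

/-- `μ` is the spectral measure of the vector `u` for the bounded self-adjoint operator `H`: it is
a finite Borel measure on `ℝ` and `∫ f dμ = ⟨u, f(H) u⟩` for all bounded continuous `f : ℝ → ℝ`.
This determines `μ` uniquely. -/
def IsSpectralMeasure {V : Type*} [NormedAddCommGroup V] [InnerProductSpace ℂ V] [CompleteSpace V]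
    (H : V →L[ℂ] V) (u : V) (μ : Measure ℝ) : Prop :=
  IsFiniteMeasure μ ∧
    ∀ f : BoundedContinuousFunction ℝ ℝ, ((∫ x, f x ∂μ : ℝ) : ℂ) = ⟪u, cfc (⇑f) H u⟫_ℂ

/-- `H` has purely singular spectrum: every vector has a spectral measure, and it is singular with
respect to Lebesgue measure. -/
def PurelySingular {V : Type*} [NormedAddCommGroup V] [InnerProductSpace ℂ V] [CompleteSpace V]
    (H : V →L[ℂ] V) : Prop :=
  ∀ u : V, ∃ μ : Measure ℝ, IsSpectralMeasure H u μ ∧ μ ⟂ₘ volume

/-- For all `k ≥ 1`, all thicknesses `M_0, ..., M_{k-1} ≥ 1`, every `c > 0` and almost every `ω`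
(independent coordinates, uniform on `[-c, c]`), the operator `Δ_ω` on the slab is bounded and
self-adjoint and has purely singular spectrum. -/
theorem result {k : ℕ} (_hk : 1 ≤ k) (M : Fin k → ℕ) (hM : ∀ i, 1 ≤ M i) (c : ℝ) (hc : 0 < c) :
    ∀ᵐ ω ∂(potLaw M c), ∃ H : ellTwo M →L[ℂ] ellTwo M,
      IsDelta ω H ∧ IsSelfAdjoint H ∧ PurelySingular H :=
  Pool.Agent.Lib.MP_562b47_mp.SG.slab_sing hc fun Es hEs => by
    have hF : Nonempty (Pool.Agent.Lib.MP_562b47_mp.SG.Fb M) := ⟨fun i => ⟨0, hM i⟩⟩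
    obtain ⟨o⟩ := id hF
    obtain ⟨δ, C, a₀, hδ, ha₀, -, h⟩ := Pool.Agent.Lib.MP_562b47_mp.SC.box (d := 2)
      (F := Pool.Agent.Lib.MP_562b47_mp.SG.Fb M) hc le_rfl
      ((Pool.Agent.Lib.MP_562b47_mp.SG.numRad_Fb M).nonneg o)
      (fun v hv => Pool.Agent.Lib.MP_562b47_mp.SG.cover_Fb hM (by norm_num) v hv)
      (kap := 2 * k) (Es := Es) hEs.1 (by
        have h2 := hEs.2
        push_cast
        linarith)
    exact ⟨δ, C, a₀, hδ, ha₀, h⟩

end Pool.Agent.Results.MP_562b47_mp.SlabSingular
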