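import Mathlib
import Pool.Agent.Lib.MP_562b47_mp.Str.Tube4
import Pool.Agent.Lib.MP_562b47_mp.Str.AeInv

/-!
The Anderson model with the uniform law on strips, at every disorder strength: the localisation length
is at most `C W^(4 + ε)`, where `W` is the number of sites of the cross section.
-/

open MeasureTheory Matrix

namespace Pool.Agent.Lib.MP_562b47_mp.Old.StripLocalization

/-- The matrix of the strip of length `L` with cross section `Q`: the sites are `(k, q)`,
`0 ≤ k < L`, `q ∈ Q`; within the layer `k` the matrix is `h k` (hopping and background potential), and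
neighbouring layers are coupled by `-1` between `(k, q)` and `(k + 1, q)`. -/
def strip (L : ℕ) {Q : Type} [DecidableEq Q] (h : Fin L → Matrix Q Q ℝ) :
    Matrix (Fin L × Q) (Fin L × Q) ℝ := fun x z =>
  if x.1 = z.1 then h x.1 x.2 z.2
  else if x.2 = z.2 ∧ ((x.1 : ℕ) + 1 = z.1 ∨ (z.1 : ℕ) + 1 = x.1) then -1 else 0

/-- The law of independent random potentials, uniformly distributed on `[-c, c]`. -/
noncomputable def law (X : Type) [Fintype X] (c : ℝ) : Measure (X → ℝ) :=
  Measure.pi fun _ => (ENNReal.ofReal (2 * c))⁻¹ • volume.restrict (Set.Icc (-c) c)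

/-- `H + V - E`, where `H = strip L h`. -/
noncomputable def shifted (L : ℕ) {Q : Type} [DecidableEq Q] (h : Fin L → Matrix Q Q ℝ) (E : ℝ)
    (V : Fin L × Q → ℝ) : Matrix (Fin L × Q) (Fin L × Q) ℝ :=
  strip L h + diagonal V - diagonal fun _ => E

/-- `∑_{q, q'} |G((0, q), (L - 1, q'))|²`, where `G = (H + V - E)⁻¹`: the square of the
Hilbert-Schmidt norm of the Green function between the two ends of the strip. -/
noncomputable def endToEnd (L : ℕ) {Q : Type} [Fintype Q] [DecidableEq Q]
    (h : Fin L → Matrix Q Q ℝ) (E : ℝ) (V : Fin L × Q → ℝ) : ℝ :=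
  ∑ x : Fin L × Q, ∑ z : Fin L × Q,
    if (x.1 : ℕ) = 0 ∧ (z.1 : ℕ) = L - 1 then
      (shifted L h E V)⁻¹ x z ^ 2 else 0

theorem strip_eq (L : ℕ) {Q : Type} [DecidableEq Q] (h : Fin L → Matrix Q Q ℝ) (E : ℝ) :
    strip L h - diagonal (fun _ => E)
      = Pool.Agent.Lib.MP_562b47_mp.Str.segH L (fun k => h k - diagonal fun _ => E) 0 (L - 1) := by
  ext x z
  obtain ⟨k, q⟩ := x
  obtain ⟨k', q'⟩ := z
  have hk := k.2
  have hk' := k'.2
  simp only [strip, Pool.Agent.Lib.MP_562b47_mp.Str.segH, Matrix.sub_apply, Matrix.diagonal_apply,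
    Prod.mk.injEq]
  by_cases h1 : k = k'
  · subst h1
    simp
  · have h2 : ((k : ℕ) + 1 = k' ∧ 0 ≤ (k:ℕ) ∧ (k' : ℕ) ≤ L - 1) ↔ (k : ℕ) + 1 = k' := by
      constructor
      · exact fun h => h.1
      · intro h; exact ⟨h, by omega, by omega⟩
    have h3 : ((k' : ℕ) + 1 = k ∧ 0 ≤ (k':ℕ) ∧ (k : ℕ) ≤ L - 1) ↔ (k' : ℕ) + 1 = k := by
      constructor
      · exact fun h => h.1
      · intro h; exact ⟨h, by omega, by omega⟩
    simp only [h1, false_and, if_false, sub_zero, h2, h3]

/-- Fix `c > 0`, bounds `R`, `Δ` and `ε > 0`.  There is a constant `C` such that for every finite cross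
section `Q`, every length `L ≥ 1`, all in-layer matrices `h k` (real symmetric, absolute row sums at
most `R`, at most `Δ` nonzero entries in each row) and every real energy `|E| ≤ R`: almost surely
`H + V - E` is invertible, and
`E (‖G((0, ·), (L - 1, ·))‖_HS)^(1/4) ≤ C |Q| exp (-L / (C |Q|^(4 + ε)))`. -/
theorem result {c : ℝ} (hc : 0 < c) (R : ℝ) (Δ : ℕ) {ε : ℝ} (hε : 0 < ε) : ∃ C : ℝ, 0 < C ∧
    ∀ (Q : Type) [Fintype Q] [DecidableEq Q] [Nonempty Q] (L : ℕ) (h : Fin L → Matrix Q Q ℝ)
      (E : ℝ), 1 ≤ L → (∀ k, (h k).IsSymm) → (∀ k q, ∑ q', |h k q q'| ≤ R) →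
      (∀ k q, (Finset.univ.filter fun q' => h k q q' ≠ 0).card ≤ Δ) → |E| ≤ R →
      (∀ᵐ V ∂(law (Fin L × Q) c), IsUnit (shifted L h E V)) ∧
      ∫⁻ V, ENNReal.ofReal (endToEnd L h E V ^ (1 / 8 : ℝ)) ∂(law (Fin L × Q) c)
        ≤ ENNReal.ofReal (C * (Fintype.card Q : ℝ)
            * Real.exp (-(L / (C * (Fintype.card Q : ℝ) ^ (4 + ε))))) := by
  have hR' : (0:ℝ) ≤ 2 * |R| := by positivity
  obtain ⟨C, hC, H⟩ := Pool.Agent.Lib.MP_562b47_mp.Str.tube4 (ε := min ε 1) hc hR'
    (lt_min hε one_pos) (min_le_right _ _) (Δ + 1)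
  have hC0 : 0 < C := by linarith
  refine ⟨C, hC0, ?_⟩
  intro Q _ _ _ L h E hL hs hrow hdeg hE
  have hR0 : 0 ≤ R := (abs_nonneg E).trans hE
  have hsub : ∀ V : Fin L × Q → ℝ, shifted L h E V
      = Pool.Agent.Lib.MP_562b47_mp.Str.segH L (fun k => h k - diagonal fun _ => E) 0 (L - 1)
        + diagonal V := by
    intro V
    rw [← strip_eq, shifted]
    abel
  constructor
  · have h1 := Pool.Agent.Lib.MP_562b47_mp.Str.ae_det_ne hc
      (Pool.Agent.Lib.MP_562b47_mp.Str.segH L (fun k => h k - diagonal fun _ => E) 0 (L - 1))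
    change ∀ᵐ V ∂(Pool.Agent.Lib.MP_562b47_mp.Str.PX (Fin L × Q) c), _
    filter_upwards [h1] with V hV
    rw [hsub, Matrix.isUnit_iff_isUnit_det]
    exact isUnit_iff_ne_zero.mpr hV
  · have h2 := H Q L (fun k => h k - diagonal fun _ => E) hL (fun k => ?_) (fun k q => ?_)
      (fun k q => ?_)
    · have h3 : ∀ V : Fin L × Q → ℝ, endToEnd L h E V
          = Pool.Agent.Lib.MP_562b47_mp.Str.gsq L (fun k => h k - diagonal fun _ => E) V := by
        intro V
        unfold endToEnd Pool.Agent.Lib.MP_562b47_mp.Str.gsq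
        rw [hsub]
      simp only [h3]
      refine h2.trans (ENNReal.ofReal_le_ofReal ?_)
      have hQ : (1 : ℝ) ≤ Fintype.card Q := by exact_mod_cast Fintype.card_pos (α := Q)
      refine mul_le_mul_of_nonneg_left (Real.exp_le_exp.2 (neg_le_neg ?_)) (by positivity)
      refine div_le_div_of_nonneg_left (Nat.cast_nonneg _) (by positivity) ?_
      refine mul_le_mul_of_nonneg_left ?_ hC0.le
      exact Real.rpow_le_rpow_of_exponent_le hQ (by linarith [min_le_left ε 1])
    · exact (hs k).sub (Matrix.isSymm_diagonal _)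
    · rw [abs_of_nonneg hR0]
      calc ∑ q', |(h k - diagonal (fun _ => E) : Matrix Q Q ℝ) q q'|
          ≤ ∑ q', (|h k q q'| + |(diagonal (fun _ => E) : Matrix Q Q ℝ) q q'|) :=
            Finset.sum_le_sum fun q' _ => by
              rw [Matrix.sub_apply]
              exact abs_sub _ _
        _ = ∑ q', |h k q q'| + |E| := by
            rw [Finset.sum_add_distrib]
            congr 1
            rw [Finset.sum_eq_single q]
            · simp
            · intro b _ hb
              simp [Matrix.diagonal_apply_ne' _ hb]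
            · simp
        _ ≤ 2 * R := by have := hrow k q; linarith
    · refine (Finset.card_le_card (t := insert q (Finset.univ.filter fun q' => h k q q' ≠ 0))
        fun q' hq' => ?_).trans ((Finset.card_insert_le _ _).trans (by
          have := hdeg k q
          omega))
      rw [Finset.mem_filter] at hq'
      rw [Finset.mem_insert, Finset.mem_filter]
      by_cases h4 : q' = q
      · exact Or.inl h4
      · right
        refine ⟨Finset.mem_univ _, fun h5 => hq'.2 ?_⟩
        rw [Matrix.sub_apply, h5, Matrix.diagonal_apply_ne' _ h4, sub_zero]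

end Pool.Agent.Lib.MP_562b47_mp.Old.StripLocalization
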