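import Mathlib
import Pool.Agent.Lib.MP_562b47_mp.ED.Main
import Pool.Agent.Lib.MP_562b47_mp.WindowB
import Pool.Agent.Lib.MP_562b47_mp.QV.Sing
import Pool.Agent.Lib.MP_562b47_mp.QV.Ball

/-!
The Anderson model on `ℤ^d` with uniformly distributed potential, `d ≥ 3`, at an arbitrary disorder
strength `c > 0`.  The absolutely continuous spectrum is carried by the energies at which the
transport is transient in the sense of Pólya: almost surely, the density of every spectral measure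
vanishes at Lebesgue-almost every energy which is not transient.

The Hilbert space `ℓ²(ℤ^d)` is given as a complex Hilbert space `V` with a Hilbert basis
`(b j)`, `j ∈ ℤ^d` (for `V = ℓ²(ℤ^d)`: `b j` is the unit vector `δ_j`).
-/

open MeasureTheory Complex Filter Topology
open scoped InnerProductSpace ENNReal

namespace Pool.Agent.Results.MP_562b47_mp.TransientEnergies

/-- The uniform distribution on `[-c, c]`. -/
noncomputable def unifLaw (c : ℝ) : Measure ℝ :=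
  (ENNReal.ofReal (2 * c))⁻¹ • volume.restrict (Set.Icc (-c) c)

/-- The law of the random potential `(ω_j)`, `j ∈ ℤ^d`: independent coordinates, each uniformly
distributed on `[-c, c]`. -/
noncomputable def potLaw (d : ℕ) (c : ℝ) : Measure ((Fin d → ℤ) → ℝ) :=
  Measure.infinitePi fun _ => unifLaw c

/-- `H` is the operator `Δ_ω` on the Hilbert space with orthonormal basis `b j = δ_j`, `j ∈ ℤ^d`:
`H δ_j = - ∑_{|n| = 1} (δ_{j + n} - δ_j) + ω_j δ_j`. -/
def IsDelta {d : ℕ} {V : Type*} [NormedAddCommGroup V] [InnerProductSpace ℂ V]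
    (b : HilbertBasis (Fin d → ℤ) ℂ V) (ω : (Fin d → ℤ) → ℝ) (H : V →L[ℂ] V) : Prop :=
  ∀ j : Fin d → ℤ, H (b j) = -∑ i : Fin d, ((b (j + Pi.single i 1) - b j)
    + (b (j - Pi.single i 1) - b j)) + (ω j : ℂ) • b j

/-- `μ` is the spectral measure of the vector `u` for the bounded self-adjoint operator `H`: it is
finite and `∫ f dμ = ⟨u, f(H) u⟩` for all bounded continuous `f : ℝ → ℝ`. -/
def IsSpectralMeasure {V : Type*} [NormedAddCommGroup V] [InnerProductSpace ℂ V] [CompleteSpace V]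
    (H : V →L[ℂ] V) (u : V) (μ : Measure ℝ) : Prop :=
  IsFiniteMeasure μ ∧
    ∀ f : BoundedContinuousFunction ℝ ℝ, ((∫ x, f x ∂μ : ℝ) : ℂ) = ⟪u, cfc (⇑f) H u⟫_ℂ

/-- The Green function `⟨δ_x, (H - z)⁻¹ δ_0⟩` (`H` self-adjoint, `z` not real: then `H - z` is
invertible). -/
noncomputable def green {d : ℕ} {V : Type*} [NormedAddCommGroup V] [InnerProductSpace ℂ V]
    [CompleteSpace V] (b : HilbertBasis (Fin d → ℤ) ℂ V) (H : V →L[ℂ] V) (z : ℂ)
    (x : Fin d → ℤ) : ℂ :=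
  ⟪b x, Ring.inverse (H - z • (1 : V →L[ℂ] V)) (b 0)⟫_ℂ

/-- The mass outside of `S` at the energy `E`: `η` times the expectation of
`∑_{x ∉ S} |⟨δ_x, (Δ_ω - E - iη)⁻¹ δ_0⟩|²`. -/
noncomputable def outsideMass {d : ℕ} {V : Type*} [NormedAddCommGroup V] [InnerProductSpace ℂ V]
    [CompleteSpace V] (c : ℝ) (b : HilbertBasis (Fin d → ℤ) ℂ V)
    (Δ : ((Fin d → ℤ) → ℝ) → (V →L[ℂ] V)) (S : Set (Fin d → ℤ)) (E η : ℝ) : ℝ≥0∞ :=
  ENNReal.ofReal η * ∫⁻ ω, ∑' x : {x : Fin d → ℤ // x ∉ S}, ‖green b (Δ ω) ⟨E, η⟩ x‖ₑ ^ 2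
    ∂(potLaw d c)

/-- The number of sites which the particle needs at the energy `E` and the scale `η`: the least
number of points in the ball `|x| ≤ 1 / (δ √η)` of a set `S ⊆ ℤ^d` (finite or infinite) with
`outsideMass S E η ≤ δ`. -/
noncomputable def siteCount {d : ℕ} {V : Type*} [NormedAddCommGroup V] [InnerProductSpace ℂ V]
    [CompleteSpace V] (c : ℝ) (b : HilbertBasis (Fin d → ℤ) ℂ V)
    (Δ : ((Fin d → ℤ) → ℝ) → (V →L[ℂ] V)) (δ E η : ℝ) : ℝ≥0∞ :=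
  ⨅ (S : Set (Fin d → ℤ)) (_ : outsideMass c b Δ S E η ≤ ENNReal.ofReal δ),
    ((S ∩ {x | ∑ i, (x i : ℝ) ^ 2 ≤ (1 / (δ * √η)) ^ 2}).ncard : ℝ≥0∞)

/-- The energy `E` is transient: `∫_0^δ dη / (η² N(η)) < ∞` for some `δ > 0`, where
`N(η) = siteCount δ E η`. -/
def Transient {d : ℕ} {V : Type*} [NormedAddCommGroup V] [InnerProductSpace ℂ V]
    [CompleteSpace V] (c : ℝ) (b : HilbertBasis (Fin d → ℤ) ℂ V)
    (Δ : ((Fin d → ℤ) → ℝ) → (V →L[ℂ] V)) (E : ℝ) : Prop :=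
  ∃ δ : ℝ, 0 < δ ∧
    ∫⁻ η in Set.Ioo 0 δ, ENNReal.ofReal (1 / η ^ 2) * (siteCount c b Δ δ E η)⁻¹ < ⊤

/-- Let `d ≥ 3` and `c > 0`.  The family `Δ_ω` exists (almost surely, as bounded self-adjoint
operators), and almost surely the density of the spectral measure of every vector vanishes at
Lebesgue-almost every energy which is not transient. -/
theorem result (d : ℕ) (hd : 3 ≤ d) (c : ℝ) (hc : 0 < c) {V : Type*} [NormedAddCommGroup V]
    [InnerProductSpace ℂ V] [CompleteSpace V] (b : HilbertBasis (Fin d → ℤ) ℂ V) :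
    (∃ Δ : ((Fin d → ℤ) → ℝ) → (V →L[ℂ] V),
      ∀ᵐ ω ∂(potLaw d c), IsDelta b ω (Δ ω) ∧ IsSelfAdjoint (Δ ω)) ∧
    ∀ Δ : ((Fin d → ℤ) → ℝ) → (V →L[ℂ] V), (∀ᵐ ω ∂(potLaw d c), IsDelta b ω (Δ ω)) →
      ∀ᵐ ω ∂(potLaw d c), ∀ (u : V) (μ : Measure ℝ), IsSpectralMeasure (Δ ω) u μ →
        ∀ᵐ E ∂(volume : Measure ℝ), Transient c b Δ E ∨ μ.rnDeriv volume E = 0 := by
  have hIcc := Pool.Agent.Lib.MP_562b47_mp.ae_mem_Icc (d := d) hc
  refine ⟨⟨Pool.Agent.Lib.MP_562b47_mp.HB b c, ?_⟩, fun Δ hΔ => ?_⟩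
  · filter_upwards [hIcc] with ω hω
    exact ⟨Pool.Agent.Lib.MP_562b47_mp.HB_basis' b hω,
      Pool.Agent.Lib.MP_562b47_mp.isSelfAdjoint_HB b hc ω⟩
  · have hae : ∀ᵐ ω ∂(potLaw d c), Δ ω = Pool.Agent.Lib.MP_562b47_mp.HB b c ω := by
      filter_upwards [hIcc, hΔ] with ω hω h2
      refine Pool.Agent.Lib.MP_562b47_mp.eq_HB_of_basis b fun j => ?_
      rw [Pool.Agent.Lib.MP_562b47_mp.HB_basis' b hω]
      exact h2 j
    have hgr : ∀ (ω : (Fin d → ℤ) → ℝ) (E η : ℝ) (x : Fin d → ℤ), 0 < η →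
        green b (Pool.Agent.Lib.MP_562b47_mp.HB b c ω) ⟨E, η⟩ x
        = Pool.Agent.Lib.MP_562b47_mp.Gr (Pool.Agent.Lib.MP_562b47_mp.ee d)
          (Pool.Agent.Lib.MP_562b47_mp.HH d c) ω ⟨E, η⟩ 0 x := by
      intro ω E η x hη
      have hz : 0 < (⟨E, η⟩ : ℂ).im := hη
      have h1 : green b (Pool.Agent.Lib.MP_562b47_mp.HB b c ω) ⟨E, η⟩ x
          = ⟪b x, Pool.Agent.Lib.MP_562b47_mp.Rv
            (Pool.Agent.Lib.MP_562b47_mp.HB b c ω) ⟨E, η⟩ (b 0)⟫_ℂ := by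
        unfold green Pool.Agent.Lib.MP_562b47_mp.Rv
        rw [Algebra.algebraMap_eq_smul_one]
      rw [h1, ← b.repr.inner_map_map, Pool.Agent.Lib.MP_562b47_mp.Rv_HB b hc ω hz.ne',
        Pool.Agent.Lib.MP_562b47_mp.repr_b, Pool.Agent.Lib.MP_562b47_mp.repr_b,
        (Pool.Agent.Lib.MP_562b47_mp.model hc).Gr_symm ω hz 0 x]
      rfl
    have hout : ∀ (S : Set (Fin d → ℤ)) (E η : ℝ), 0 < η → outsideMass c b Δ S E η
        = Pool.Agent.Lib.MP_562b47_mp.QV.qS d c S E η := by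
      intro S E η hη
      unfold outsideMass Pool.Agent.Lib.MP_562b47_mp.QV.qS
      congr 1
      refine lintegral_congr_ae ?_
      filter_upwards [hae] with ω hω
      rw [hω]
      simp_rw [hgr ω E η _ hη]
    have hlg : ∀ δ E η : ℝ, 0 < η → siteCount c b Δ δ E η
        = Pool.Agent.Lib.MP_562b47_mp.QV.NB d c (1 / (δ * √η)) δ E η := by
      intro δ E η hη
      unfold siteCount Pool.Agent.Lib.MP_562b47_mp.QV.NB
      simp_rw [hout _ E η hη]
      rfl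
    obtain ⟨K, hK, hDE⟩ := Pool.Agent.Lib.MP_562b47_mp.ED.de_all (d := d) hc (by omega)
    have hDE' : ∀ u η : ℝ, 0 < η → η ≤ 1 → Pool.Agent.Lib.MP_562b47_mp.QL.DE d c ⟨u, η⟩
        ≤ ENNReal.ofReal (K / η ^ 2) := by
      intro u η h0 h1
      refine (hDE u η h0 h1).trans (ENNReal.ofReal_le_ofReal ?_)
      refine div_le_div_of_nonneg_left hK (by positivity) ?_
      nlinarith [mul_nonneg (sq_nonneg η) (sq_nonneg u)]
    have hT : ∀ E ∈ Pool.Agent.Lib.MP_562b47_mp.QV.TT c (Pool.Agent.Lib.MP_562b47_mp.ee d)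
        (Pool.Agent.Lib.MP_562b47_mp.HH d c), Transient c b Δ E := by
      intro E hE
      obtain ⟨δ, hδ, h⟩ := Pool.Agent.Lib.MP_562b47_mp.QV.ball_fin hc hK hDE' hE
      refine ⟨δ, hδ, lt_of_le_of_lt (le_of_eq ?_) h⟩
      refine setLIntegral_congr_fun measurableSet_Ioo fun η hη => ?_
      rw [hlg δ E η hη.1]
    have hmain := Pool.Agent.Lib.MP_562b47_mp.QV.noAC_HB b hc _
      (Pool.Agent.Lib.MP_562b47_mp.QV.qv_noAC (Pool.Agent.Lib.MP_562b47_mp.model hc)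
        (Pool.Agent.Lib.MP_562b47_mp.covOp_HH hc))
    have hTm := Pool.Agent.Lib.MP_562b47_mp.QV.TT_meas (Pool.Agent.Lib.MP_562b47_mp.model (d := d) hc)
    filter_upwards [hmain, hae] with ω h1 h2 u μ hμ
    rw [h2] at hμ
    have := hμ.1
    have h3 := h1 u μ hμ.1 hμ.2
    unfold Pool.Agent.Lib.MP_562b47_mp.QL.NoAC at h3
    rw [ae_restrict_iff' hTm.compl] at h3
    filter_upwards [h3, Measure.rnDeriv_lt_top μ volume] with E h4 h5
    by_cases hE : E ∈ Pool.Agent.Lib.MP_562b47_mp.QV.TT c (Pool.Agent.Lib.MP_562b47_mp.ee d)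
        (Pool.Agent.Lib.MP_562b47_mp.HH d c)
    · exact Or.inl (hT E hE)
    · right
      have h6 := h4 hE
      unfold Pool.Agent.Lib.MP_562b47_mp.Dens at h6
      have h7 := (mul_eq_zero.mp h6).resolve_left Real.pi_ne_zero
      rcases (ENNReal.toReal_eq_zero_iff _).mp h7 with h | h
      · exact h
      · exact absurd h h5.ne

end Pool.Agent.Results.MP_562b47_mp.TransientEnergies
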